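import Pool.Agent.T9h34.Q.Spec

/-! (B) Star cover -/

set_option autoImplicit false

namespace Pool.Agent.T9h75.QC

open Finset
open Pool.Agent.T9h34.Q

theorem stCover : StCover := by
  intro j F A hF hA
  classical
  rcases j with _ | j
  · exact ⟨A, fun x => x.elim0, Subset.rfl, fun w => w.elim0, fun x => x.elim0⟩
  let P : Finset (Sym2 (Fin (j + 1))) → Prop := fun F' => ∀ v, v ∉ A → ∃ e ∈ F', v ∈ e
  have hne : (F.powerset.filter P).Nonempty :=
    ⟨F, mem_filter.2 ⟨mem_powerset.2 Subset.rfl, fun v hv => (hA v).resolve_left hv⟩⟩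
  obtain ⟨F', hF', hmin⟩ := exists_min_image (F.powerset.filter P) card hne
  rw [mem_filter, mem_powerset] at hF'
  obtain ⟨hsub, hP⟩ := hF'
  have hpriv : ∀ e ∈ F', ∃ v, v ∉ A ∧ v ∈ e ∧ ∀ e' ∈ F', v ∈ e' → e' = e := by
    intro e he
    by_contra hcon
    push Not at hcon
    have h1 : P (F'.erase e) := by
      intro v hv
      obtain ⟨e', he', hve⟩ := hP v hv
      by_cases h : e' = e
      · subst h
        obtain ⟨e'', h1, h2, h3⟩ := hcon v hv hve
        exact ⟨e'', mem_erase.2 ⟨h3, h1⟩, h2⟩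
      · exact ⟨e', mem_erase.2 ⟨h, he'⟩, hve⟩
    have h2 := hmin (F'.erase e)
      (mem_filter.2 ⟨mem_powerset.2 ((erase_subset _ _).trans hsub), h1⟩)
    have h3 := card_erase_lt_of_mem he
    omega
  choose! p hpA hpe hpu using hpriv
  have hex : ∀ w, w ∈ F'.image p → ∃ u, s(u, w) ∈ F' ∧ p s(u, w) = w := by
    intro w hw
    obtain ⟨e, he, rfl⟩ := mem_image.1 hw
    obtain ⟨u, hu⟩ := hpe e he
    have h : s(u, p e) = e := by rw [Sym2.eq_swap]; exact hu.symm
    exact ⟨u, by rw [h]; exact he, by rw [h]⟩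
  choose! par hpar1 hpar2 using hex
  refine ⟨(F'.image p)ᶜ, par, ?_, ?_, ?_⟩
  · intro x hx
    rw [mem_compl, mem_image]
    rintro ⟨e, he, rfl⟩
    exact hpA e he hx
  · intro w hw
    rw [mem_compl, not_not] at hw
    refine ⟨?_, hsub (hpar1 w hw)⟩
    rw [mem_compl, mem_image]
    rintro ⟨e', he', h⟩
    have h1 : s(par w, w) = e' := hpu e' he' _ (hpar1 w hw) (by rw [h]; exact Sym2.mem_mk_left _ _)
    have h2 := hpar2 w hw
    rw [h1, h] at h2
    have h3 := hF _ (hsub (hpar1 w hw))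
    rw [h2] at h3
    exact h3 (Sym2.mk_isDiag_iff.2 rfl)
  · intro x hx hxA
    rw [mem_compl] at hx
    obtain ⟨e, he, hxe⟩ := hP x hxA
    have hw : p e ∈ F'.image p := mem_image_of_mem _ he
    refine ⟨p e, by rw [mem_compl, not_not]; exact hw, ?_⟩
    have h1 : s(par (p e), p e) = e :=
      hpu e he _ (hpar1 _ hw) (Sym2.mem_mk_right _ _)
    rw [← h1, Sym2.mem_iff] at hxe
    rcases hxe with h | h
    · exact h.symm
    · exact absurd (h ▸ hw) hx

end Pool.Agent.T9h75.QC
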