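import Pool.Agent.T9h75.QC.Walk

/-! (G1) Reduction -/

set_option autoImplicit false

namespace Pool.Agent.T9h75.QC

open Finset
open Pool.Agent.T9h34.Q

section

variable {V : Type} [Fintype V] [DecidableEq V] {B d m : ℕ}

theorem stage_mono (ω : Env V B d m) {a b : ℕ} (h : a ≤ b) : stage ω a ⊆ stage ω b := by
  unfold stage
  refine union_subset_union Subset.rfl (biUnion_subset_biUnion_of_subset_left _ ?_)
  intro i hi
  simp only [ixBelow, mem_filter, mem_univ, true_and] at hi ⊢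
  omega

theorem marks_mono (ω : Env V B d m) {a b : ℕ} (h : a ≤ b) {A A' : Finset V} (hA : A ⊆ A') :
    marks ω a A ⊆ marks ω b A' := by
  unfold marks
  intro e he
  rw [mem_biUnion] at he ⊢
  obtain ⟨v, hv, he⟩ := he
  rw [mem_image] at he
  obtain ⟨i, hi, rfl⟩ := he
  refine ⟨v, hA hv, mem_image.2 ⟨i, ?_, rfl⟩⟩
  simp only [ixBelow, mem_filter, mem_univ, true_and] at hi ⊢
  omega

theorem phi_mono {h : Finset (Sym2 V) → ℝ} (hh : Monotone h) (ω : Env V B d m) {a b : ℕ}
    (hab : a ≤ b) {F F' : Finset (Sym2 V)} (hF : F ⊆ F') {A A' : Finset V} (hA : A ⊆ A') :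
    phi h ω a F A ≤ phi h ω b F' A' :=
  hh (union_subset_union (union_subset_union (stage_mono ω hab) (marks_mono ω hab hA)) hF)

theorem card_KT_le (T : Finset V) {w : ℕ} (h : T.card ≤ w) : (KT T).card ≤ w ^ 2 := by
  have h1 : (KT T).card ≤ T.sym2.card := card_le_card (filter_subset _ _)
  rw [card_sym2] at h1
  have h2 : (T.card + 1).choose 2 ≤ T.card ^ 2 := by
    rw [Nat.choose_two_right, Nat.add_sub_cancel]
    rcases Nat.eq_zero_or_pos T.card with h0 | h0
    · rw [h0]; simp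
    · apply Nat.div_le_of_le_mul
      nlinarith
  exact h1.trans (h2.trans (Nat.pow_le_pow_left h 2))

end

theorem stReduce : StReduce := by
  intro V _ _ B d m h hh t q c w hq ω S T hTS hTw hbad
  classical
  set r := h (stage ω t ∪ marks ω t T ∪ KT T) with hr
  obtain ⟨a, F, A, ha1, ha2, hF, hA, hΦ, hE, hV⟩ :=
    stWalk V (Sym2 V) (fun a F A => r ≤ phi h ω a F A) (KT T) T t le_rfl
  have haq : a < t + q := by
    have h1 := card_KT_le T hTw
    have h2 : ((KT T).card + 1) * (T.card + 1) ≤ (w ^ 2 + 1) * (w + 1) :=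
      Nat.mul_le_mul (by omega) (by omega)
    omega
  let T' : Finset V := T.filter (fun v => v ∈ A ∨ ∃ e ∈ F, v ∈ e)
  have hT'T : T' ⊆ T := filter_subset _ _
  have hAT' : A ⊆ T' := fun v hv => mem_filter.2 ⟨hA hv, .inl hv⟩
  have hFT' : F ⊆ KT T' := by
    intro e he
    have h1 := hF he
    rw [KT, mem_filter] at h1 ⊢
    refine ⟨?_, h1.2⟩
    rw [mem_sym2_iff] at h1 ⊢
    intro v hv
    exact mem_filter.2 ⟨h1.1 v hv, .inr ⟨e, he, hv⟩⟩
  refine ⟨T', hT'T, ?_, ?_⟩
  · by_contra hcard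
    apply hbad
    refine ⟨a, ha1, haq, T', A, F, hT'T.trans hTS, hAT', hFT', fun v hv => (mem_filter.1 hv).2,
      by omega, (card_le_card hT'T).trans hTw, ?_, ?_⟩
    · intro e he
      have h1 := lt_of_not_ge (hE e he)
      exact (phi_mono hh ω le_rfl Subset.rfl hT'T).trans_lt (h1.trans_le hΦ)
    · intro v hv
      exact (lt_of_not_ge (hV v hv)).trans_le hΦ
  · exact hΦ.trans (phi_mono hh ω (by omega) hFT' hAT')

end Pool.Agent.T9h75.QC
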