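import Pool.Agent.T9h34.Q.Spec3

/-! (C') Unique maximum, keeping the union -/

set_option autoImplicit false

namespace Pool.Agent.T9h75.QC

open Finset
open Pool.Agent.T9h34.Q

theorem stUniqueB : StUniqueB := by
  intro Γ D _ _ _ v τ hτ
  rw [← Nat.card_prod]
  have key : ∀ (g₁ : Γ) (x₁ : D), (∀ g, g ≠ 0 → v g x₁ < v 0 x₁) →
      ∀ g, g ≠ g₁ → v g ((τ g₁).symm x₁) < v g₁ ((τ g₁).symm x₁) := by
    intro g₁ x₁ h₁ g hg
    have e1 : x₁ = τ g₁ ((τ g₁).symm x₁) := by rw [Equiv.apply_symm_apply]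
    have := h₁ (g - g₁) (sub_ne_zero.2 hg)
    rw [e1, hτ, hτ, sub_add_cancel, zero_add] at this
    exact this
  refine Nat.card_le_card_of_injective
    (fun p : Γ × {x : D // ∀ g, g ≠ 0 → v g x < v 0 x} =>
      (⟨(τ p.1).symm p.2.1, p.1, key p.1 p.2.1 p.2.2⟩ :
        {x : D // ∃ g', ∀ g, g ≠ g' → v g x < v g' x})) ?_
  rintro ⟨g₁, x₁, h₁⟩ ⟨g₂, x₂, h₂⟩ h
  have h' : (τ g₁).symm x₁ = (τ g₂).symm x₂ := congrArg Subtype.val h
  have k1 := key g₁ x₁ h₁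
  have k2 := key g₂ x₂ h₂
  rw [← h'] at k2
  have hg : g₁ = g₂ := by
    by_contra hne
    exact lt_asymm (k1 g₂ (Ne.symm hne)) (k2 g₁ hne)
  subst hg
  have hx : x₁ = x₂ := (τ g₁).symm.injective h'
  subst hx
  rfl

end Pool.Agent.T9h75.QC
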