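import Pool.Agent.T9h34.Q.Spec

/-! (A) Walk, (C) Unique, (E) Change, (D3) Fibre -/

set_option autoImplicit false

namespace Pool.Agent.T9h75.QC

open Finset
open Pool.Agent.T9h34.Q

theorem walk_aux {V E : Type} [DecidableEq V] [DecidableEq E]
    (Φ : ℕ → Finset E → Finset V → Prop) (K : Finset E) (T : Finset V) :
    ∀ (n a : ℕ) (F : Finset E) (A : Finset V), F ⊆ K → A ⊆ T → Φ a F A →
      F.card * (T.card + 1) + A.card ≤ n →
      ∃ (a' : ℕ) (F' : Finset E) (A' : Finset V), a ≤ a' ∧ a' ≤ a + n ∧ F' ⊆ K ∧ A' ⊆ T ∧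
        Φ a' F' A' ∧ (∀ e ∈ F', ¬ Φ (a' + 1) (F'.erase e) T) ∧
        ∀ v ∈ A', ¬ Φ (a' + 1) F' (A'.erase v) := by
  intro n
  induction n with
  | zero =>
    intro a F A hF hA h hn
    have h1 : A.card = 0 := by omega
    have h2 : F.card * (T.card + 1) = 0 := by omega
    have h3 : F.card = 0 := by
      rcases Nat.mul_eq_zero.1 h2 with h | h
      · exact h
      · omega
    rw [card_eq_zero] at h1 h3
    subst h1; subst h3
    exact ⟨a, ∅, ∅, le_rfl, le_rfl, hF, hA, h, by simp, by simp⟩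
  | succ n ih =>
    intro a F A hF hA h hn
    by_cases he : ∃ e ∈ F, Φ (a + 1) (F.erase e) T
    · obtain ⟨e, heF, he⟩ := he
      have hc : 0 < F.card := card_pos.2 ⟨e, heF⟩
      obtain ⟨a', F', A', h1, h2, h3⟩ := ih (a + 1) (F.erase e) T
        ((erase_subset _ _).trans hF) Subset.rfl he (by
          rw [card_erase_of_mem heF]
          obtain ⟨f, hf⟩ : ∃ f, F.card = f + 1 := ⟨F.card - 1, by omega⟩
          rw [hf] at hn ⊢
          rw [Nat.add_sub_cancel]
          have : (f + 1) * (T.card + 1) = f * (T.card + 1) + (T.card + 1) := by ring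
          omega)
      exact ⟨a', F', A', by omega, by omega, h3⟩
    · by_cases hv : ∃ v ∈ A, Φ (a + 1) F (A.erase v)
      · obtain ⟨v, hvA, hv⟩ := hv
        have hc : 0 < A.card := card_pos.2 ⟨v, hvA⟩
        obtain ⟨a', F', A', h1, h2, h3⟩ := ih (a + 1) F (A.erase v) hF
          ((erase_subset _ _).trans hA) hv (by rw [card_erase_of_mem hvA]; omega)
        exact ⟨a', F', A', by omega, by omega, h3⟩
      · exact ⟨a, F, A, le_rfl, by omega, hF, hA, h, fun e he' h' => he ⟨e, he', h'⟩,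
          fun v hv' h' => hv ⟨v, hv', h'⟩⟩

theorem stWalk : StWalk := by
  intro V E _ _ Φ K T t h
  obtain ⟨a, F, A, h1, h2, h3⟩ := walk_aux Φ K T (K.card * (T.card + 1) + T.card) t K T
    Subset.rfl Subset.rfl h le_rfl
  refine ⟨a, F, A, h1, ?_, h3⟩
  have : (K.card + 1) * (T.card + 1) = K.card * (T.card + 1) + (T.card + 1) := by ring
  omega

theorem stUnique : StUnique := by
  intro Γ D _ _ _ v τ hτ
  rw [← Nat.card_prod]
  refine Nat.card_le_card_of_injective
    (fun p : Γ × {x : D // ∀ g, g ≠ 0 → v g x < v 0 x} => (τ p.1).symm p.2.1) ?_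
  rintro ⟨g₁, x₁, h₁⟩ ⟨g₂, x₂, h₂⟩ h
  simp only at h
  set y := (τ g₁).symm x₁ with hy
  have e1 : x₁ = τ g₁ y := by rw [hy, Equiv.apply_symm_apply]
  have e2 : x₂ = τ g₂ y := by rw [h, Equiv.apply_symm_apply]
  have k1 : ∀ g, g ≠ g₁ → v g y < v g₁ y := by
    intro g hg
    have := h₁ (g - g₁) (sub_ne_zero.2 hg)
    rw [e1, hτ, hτ, sub_add_cancel, zero_add] at this
    exact this
  have k2 : ∀ g, g ≠ g₂ → v g y < v g₂ y := by
    intro g hg
    have := h₂ (g - g₂) (sub_ne_zero.2 hg)
    rw [e2, hτ, hτ, sub_add_cancel, zero_add] at this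
    exact this
  have hg : g₁ = g₂ := by
    by_contra hne
    have a1 := k1 g₂ (Ne.symm hne)
    have a2 := k2 g₁ hne
    exact lt_asymm a1 a2
  subst hg
  have hx : x₁ = x₂ := by rw [e1, e2]
  subst hx
  rfl

theorem stChange : StChange := by
  intro E _ _ K Θ
  classical
  have h1 : (2 : ℕ) ^ K.card = Nat.card {S : Finset E // S ⊆ K} := by
    rw [← card_powerset, Nat.card_eq_fintype_card, Fintype.card_subtype]
    congr 1
    ext S
    simp
  rw [h1, ← Nat.card_prod]
  refine Nat.card_le_card_of_injective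
    (fun G : {G : Finset E // Θ (G ∪ K)} =>
      ((⟨G.1 ∩ K, inter_subset_right⟩, ⟨G.1 ∪ K, G.2⟩) :
        {S : Finset E // S ⊆ K} × {G : Finset E // Θ G})) ?_
  rintro ⟨G₁, h₁⟩ ⟨G₂, h₂⟩ h
  simp only [Prod.mk.injEq, Subtype.mk.injEq] at h
  obtain ⟨a, b⟩ := h
  apply Subtype.ext
  ext e
  by_cases he : e ∈ K
  · have := congrArg (fun S => e ∈ S) a
    simpa [he] using this
  · have := congrArg (fun S => e ∈ S) b
    simpa [he] using this

theorem stFibre : StFibre := by
  intro V M _ _ _ j φ hφ Q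
  classical
  -- the vertices in the range and the others
  let e1 : Fin j ≃ {v : V // v ∈ Set.range φ} := Equiv.ofInjective φ hφ
  let e : (V → M) ≃ (Fin j → M) × ({v : V // ¬ v ∈ Set.range φ} → M) :=
    (Equiv.piEquivPiSubtypeProd (fun v => v ∈ Set.range φ) (fun _ => M)).trans
      (Equiv.prodCongr (Equiv.arrowCongr e1.symm (Equiv.refl M)) (Equiv.refl _))
  have he : ∀ ν : V → M, (e ν).1 = fun i => ν (φ i) := by
    intro ν
    funext i
    rfl
  let e2 : {ν : V → M // Q (fun i => ν (φ i))} ≃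
      {N : Fin j → M // Q N} × ({v : V // ¬ v ∈ Set.range φ} → M) :=
    { toFun := fun ν => (⟨(e ν.1).1, by rw [he]; exact ν.2⟩, (e ν.1).2)
      invFun := fun p => ⟨e.symm (p.1.1, p.2), by
        have h := he (e.symm (p.1.1, p.2))
        rw [Equiv.apply_symm_apply] at h
        rw [← h]
        exact p.1.2⟩
      left_inv := by
        intro ν
        apply Subtype.ext
        simp
      right_inv := by
        rintro ⟨⟨N, hN⟩, z⟩
        simp }
  have hc : Fintype.card {v : V // ¬ v ∈ Set.range φ} + j = Fintype.card V := by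
    have h1 := Fintype.card_congr e1
    rw [Fintype.card_fin] at h1
    have h2 := Fintype.card_subtype_compl (fun v => v ∈ Set.range φ)
    have h3 := Fintype.card_subtype_le (fun v => v ∈ Set.range φ)
    omega
  rw [Nat.card_congr e2, Nat.card_prod, mul_assoc]
  congr 1
  rw [Nat.card_fun, Nat.card_eq_fintype_card (α := {v : V // ¬ v ∈ Set.range φ}), ← pow_add, hc]

end Pool.Agent.T9h75.QC
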