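import Pool.Agent.T9h34.Q.Spec2

/-! (L) Circuits with tests -/

set_option autoImplicit false

namespace Pool.Agent.T9h75.QC

open Finset
open Pool.Agent.PC34 (prob)
open Pool.Agent.T9h34 (graphInput)
open Pool.Agent.T9h34.P (gr)
open Pool.Agent.HC34 (srcs IsLevel DepthLE)
open Pool.Agent.T9h34.Q

section prob

variable {X Y : Type} [Fintype X] [Fintype Y]

open Classical in
theorem prob_sum (A : X → Prop) :
    prob A = (∑ x, if A x then (1 : ℝ) else 0) / Fintype.card X := by
  unfold prob
  rw [Finset.sum_boole]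

theorem prob_fst [Nonempty Y] (A : X → Prop) : prob (fun p : X × Y => A p.1) = prob A := by
  classical
  rw [prob_sum, prob_sum, Fintype.sum_prod_type, Fintype.card_prod]
  have h : ∀ x : X, ∑ _y : Y, (if A x then (1 : ℝ) else 0) =
      (Fintype.card Y : ℝ) * (if A x then (1 : ℝ) else 0) := by
    intro x
    rw [Finset.sum_const, card_univ, nsmul_eq_mul]
  simp only [h]
  rw [← Finset.mul_sum, Nat.cast_mul]
  have hY : (Fintype.card Y : ℝ) ≠ 0 := by
    have : 0 < Fintype.card Y := Fintype.card_pos
    positivity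
  by_cases hX : (Fintype.card X : ℝ) = 0
  · rw [hX]; simp
  · field_simp

theorem prob_equiv (e : X ≃ Y) (A : Y → Prop) : prob (fun x => A (e x)) = prob A := by
  classical
  rw [prob_sum, prob_sum, Fintype.card_congr e]
  congr 1
  exact Equiv.sum_comp e (fun y => if A y then (1 : ℝ) else 0)

theorem prob_snd [Nonempty X] (A : Y → Prop) : prob (fun p : X × Y => A p.2) = prob A := by
  rw [← prob_fst (Y := X) A, ← prob_equiv (Equiv.prodComm X Y) (fun p : Y × X => A p.1)]
  rfl

/-- pointwise inequality between indicators -/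
theorem prob_main {R : Type} (S : Finset R) (P₁ P₀ : X → Prop) (a b c : R → X → Prop)
    (h : ∀ x, P₁ x → P₀ x ∨ ∃ r ∈ S, a r x ∨ (b r x ∧ ¬ c r x))
    (hbc : ∀ r ∈ S, ∀ x, c r x → b r x) :
    prob P₁ ≤ prob P₀ + ∑ r ∈ S, (prob (a r) + (prob (b r) - prob (c r))) := by
  classical
  simp only [prob_sum]
  rw [show (∑ r ∈ S, ((∑ x, if a r x then (1 : ℝ) else 0) / Fintype.card X +
      ((∑ x, if b r x then (1 : ℝ) else 0) / Fintype.card X -
        (∑ x, if c r x then (1 : ℝ) else 0) / Fintype.card X))) =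
      (∑ x, ∑ r ∈ S, ((if a r x then (1 : ℝ) else 0) +
        ((if b r x then (1 : ℝ) else 0) - (if c r x then (1 : ℝ) else 0)))) / Fintype.card X by
    rw [Finset.sum_comm, Finset.sum_div]
    refine Finset.sum_congr rfl fun r _ => ?_
    rw [Finset.sum_add_distrib, Finset.sum_sub_distrib]
    ring]
  rw [← add_div, ← Finset.sum_add_distrib]
  refine div_le_div_of_nonneg_right (Finset.sum_le_sum fun x _ => ?_) (Nat.cast_nonneg _)
  have hnn : ∀ r ∈ S, 0 ≤ (if a r x then (1 : ℝ) else 0) +
      ((if b r x then (1 : ℝ) else 0) - (if c r x then (1 : ℝ) else 0)) := by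
    intro r hr
    have h1 := hbc r hr x
    by_cases hc : c r x
    · simp only [hc, h1 hc, if_true]
      split_ifs <;> norm_num
    · simp only [hc, if_false]
      split_ifs <;> norm_num
  have hnn0 := Finset.sum_nonneg hnn
  by_cases h1 : P₁ x
  · simp only [h1, if_true]
    rcases h x h1 with h0 | ⟨r, hr, h2⟩
    · simp only [h0, if_true]; linarith
    · have h3 := Finset.single_le_sum hnn hr
      have h4 : (1 : ℝ) ≤ (if a r x then (1 : ℝ) else 0) +
          ((if b r x then (1 : ℝ) else 0) - (if c r x then (1 : ℝ) else 0)) := by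
        have h5 := hbc r hr x
        rcases h2 with h2 | ⟨h2, h2'⟩
        · simp only [h2, if_true]
          by_cases hc : c r x
          · simp only [hc, h5 hc, if_true]; norm_num
          · simp only [hc, if_false]; split_ifs <;> norm_num
        · simp only [h2, h2', if_true, if_false]; split_ifs <;> norm_num
      have h6 : (0 : ℝ) ≤ if P₀ x then 1 else 0 := by split_ifs <;> norm_num
      linarith
  · simp only [h1, if_false]
    have h6 : (0 : ℝ) ≤ if P₀ x then 1 else 0 := by split_ifs <;> norm_num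
    linarith

end prob

theorem errQ_nonneg (s q c w : ℕ) {x : ℝ} (hx : 0 ≤ x) : 0 ≤ errQ s q c w x := by
  unfold errQ wgt
  positivity

theorem eval_mono {ι : Type} {f : ℕ} (E : T9h35.RW.Circuit ι) (hE : ∀ g ∈ E.gates, g.IsMono f)
    {x y : ι → Bool} (hxy : ∀ i, x i = true → y i = true) (h : E.eval x = true) :
    E.eval y = true := by
  have key : ∀ (gs : List (T9h35.RW.Gate ι)), (∀ g ∈ gs, g.IsMono f) → ∀ l l' : List ℝ,
      T9h35.RW.LeL l l' →
      T9h35.RW.LeL (gs.foldl (fun vals g => vals ++ [g.eval x vals]) l)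
        (gs.foldl (fun vals g => vals ++ [g.eval y vals]) l') := by
    intro gs
    induction gs with
    | nil => intro _ l l' hl; exact hl
    | cons g gs ih =>
      intro hg l l' hl
      rw [List.foldl_cons, List.foldl_cons]
      exact ih (fun g' hg' => hg g' (by simp [hg'])) _ _
        (hl.append (T9h35.RW.gate_le hxy hl g (hg g (by simp))))
  exact T9h35.RW.test_mono hxy
    (key E.gates hE [] [] ⟨rfl, fun _ => le_rfl⟩).2 _ h

theorem stAll (hM : StMono) (hJ : StDetector) (hR : StReads) (hT : StTV) : StAll := by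
  intro n B d m k f c q D s d' C hn hk hfan hs hD hf hc hd hq hB hRt
  classical
  have : Nonempty (Fin n) := ⟨⟨0, hn⟩⟩
  have : Nonempty {S : Finset (Fin n) // S.card = k} := by
    obtain ⟨S, -, hS⟩ := Finset.exists_subset_card_eq (s := (univ : Finset (Fin n))) (n := k)
      (by rw [card_univ, Fintype.card_fin]; exact hk)
    exact ⟨⟨S, hS⟩⟩
  set T := C.numTests with hTdef
  -- the answers
  have hfin : (Set.range (fun x : Fin n × Fin n → Bool => C.reads x)).Finite :=
    Set.finite_range _
  let R := hfin.toFinset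
  have hRcard : R.card ≤ 2 ^ T := by
    have := hR (Fin n × Fin n) C
    rwa [Set.ncard_eq_toFinset_card _ hfin] at this
  -- detectors
  have hdet : ∀ r : List (List Bool), ∃ E : T9h35.RW.Circuit (Fin n × Fin n), r ∈ R →
      (∀ g ∈ E.gates, g.IsMono f) ∧ E.size ≤ C.size + C.numTests + 1 ∧
      DepthLE E (D + C.numTests + 1) ∧
      (∀ y, C.reads y = r → ∀ x, (∀ i, y i = true → x i = true) → E.eval x = false →
        C.reads x = r ∧ C.eval x = false) ∧
      ∀ x, C.reads x = r → E.eval x = true → C.eval x = true := by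
    intro r
    by_cases hr : r ∈ R
    · have h1 : r ∈ Set.range (fun x : Fin n × Fin n → Bool => C.reads x) :=
        hfin.mem_toFinset.1 hr
      obtain ⟨y₀, hy₀⟩ := h1
      have hy : C.reads y₀ = r := hy₀
      obtain ⟨E, hE⟩ := hJ (Fin n × Fin n) f d' D hf C hfan hD y₀
      rw [hy] at hE
      exact ⟨E, fun _ => hE⟩
    · exact ⟨C, fun h => absurd h hr⟩
  choose E hE using hdet
  let gi : Finset (Sym2 (Fin n)) → (Fin n × Fin n → Bool) := fun U => graphInput (gr U)
  have gi_mono : ∀ {U Z : Finset (Sym2 (Fin n))}, U ⊆ Z → ∀ p, gi U p = true → gi Z p = true :=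
    fun h p hp => T9h34.P.graphInput_mono h p hp
  let Ω := {S : Finset (Fin n) // S.card = k} × Env (Fin n) B d m
  have hmain := prob_main (X := Ω) R
    (fun x => C.eval (gi (x.2.1 ∪ KT x.1.1)) = true)
    (fun x => C.eval (gi x.2.1) = true)
    (fun r x => (E r).eval (gi (x.2.1 ∪ KT x.1.1)) = true ∧ (E r).eval (gi (stage x.2 B)) = false)
    (fun r x => (E r).eval (gi (stage x.2 B)) = true)
    (fun r x => (E r).eval (gi x.2.1) = true) ?_ ?_
  · have e1 : prob (fun x : Ω => C.eval (gi (x.2.1 ∪ KT x.1.1)) = true) =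
        prob (fun x : Finset (Sym2 (Fin n)) × {S : Finset (Fin n) // S.card = k} =>
          C.eval (graphInput (gr (x.1 ∪ KT x.2.1))) = true) := by
      let e : Ω ≃ (Finset (Sym2 (Fin n)) × {S : Finset (Fin n) // S.card = k}) ×
          ((Ix B d m → Packet (Fin n) B d m) × (Fin n → Ix B d m → Fin n)) :=
        { toFun := fun x => ((x.2.1, x.1), (x.2.2.1, x.2.2.2))
          invFun := fun y => (y.1.2, (y.1.1, (y.2.1, y.2.2)))
          left_inv := fun _ => rfl
          right_inv := fun _ => rfl }
      rw [← prob_fst (Y := (Ix B d m → Packet (Fin n) B d m) × (Fin n → Ix B d m → Fin n))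
        (fun x : Finset (Sym2 (Fin n)) × {S : Finset (Fin n) // S.card = k} =>
          C.eval (graphInput (gr (x.1 ∪ KT x.2.1))) = true), ← prob_equiv e]
      rfl
    have e2 : ∀ Θ : Finset (Sym2 (Fin n)) → Prop, prob (fun x : Ω => Θ x.2.1) = prob Θ := by
      intro Θ
      rw [prob_snd (X := {S : Finset (Fin n) // S.card = k})
        (fun ω : Env (Fin n) B d m => Θ ω.1)]
      exact prob_fst (Y := (Ix B d m → Packet (Fin n) B d m) × (Fin n → Ix B d m → Fin n)) Θ
    have e3 : ∀ Θ : Finset (Sym2 (Fin n)) → Prop, prob (fun x : Ω => Θ (stage x.2 B)) ≤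
        prob Θ + Fintype.card (Ix B d m) * (2 * (Fintype.card (Rt B d m) : ℝ) / n) := by
      intro Θ
      rw [prob_snd (X := {S : Finset (Fin n) // S.card = k})
        (fun ω : Env (Fin n) B d m => Θ (stage ω B))]
      have := hT (Fin n) B d m (by rw [Fintype.card_fin]; exact hRt) Θ
      rw [Fintype.card_fin] at this
      exact this
    set x₀ : ℝ := (k : ℝ) / (m + 1) with hx₀
    set TV : ℝ := Fintype.card (Ix B d m) * (2 * (Fintype.card (Rt B d m) : ℝ) / n) with hTV
    have hTV0 : 0 ≤ TV := by rw [hTV]; positivity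
    have hx0 : 0 ≤ x₀ := by rw [hx₀]; positivity
    have herr := errQ_nonneg (s + 1) q c d hx0
    have hterm : ∀ r ∈ R,
        prob (fun x : Ω => (E r).eval (gi (x.2.1 ∪ KT x.1.1)) = true ∧
          (E r).eval (gi (stage x.2 B)) = false) +
        (prob (fun x : Ω => (E r).eval (gi (stage x.2 B)) = true) -
          prob (fun x : Ω => (E r).eval (gi x.2.1) = true)) ≤ errQ (s + 1) q c d x₀ + TV := by
      intro r hr
      obtain ⟨g1, g2, g3, -, -⟩ := hE r hr
      have m1 := hM n B d m k f c q (D + T + 1) (s + 1) (E r) hn hk g1 (by omega) g3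
        (by omega) hc hd hq (by rw [show D + T + 1 + 1 = D + T + 2 by ring]; exact hB)
      have m2 := e3 (fun U => (E r).eval (gi U) = true)
      have m3 := e2 (fun U => (E r).eval (gi U) = true)
      have m1' : prob (fun x : Ω => (E r).eval (gi (x.2.1 ∪ KT x.1.1)) = true ∧
          (E r).eval (gi (stage x.2 B)) = false) ≤ errQ (s + 1) q c d x₀ := m1
      have m2' : prob (fun x : Ω => (E r).eval (gi (stage x.2 B)) = true) ≤
        prob (fun U => (E r).eval (gi U) = true) + TV := m2
      have m3' : prob (fun x : Ω => (E r).eval (gi x.2.1) = true) =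
        prob (fun U => (E r).eval (gi U) = true) := m3
      linarith
    have hsum := Finset.sum_le_sum hterm
    rw [Finset.sum_const, nsmul_eq_mul] at hsum
    have hR2 : (R.card : ℝ) * (errQ (s + 1) q c d x₀ + TV) ≤
        2 ^ T * (errQ (s + 1) q c d x₀ + TV) := by
      refine mul_le_mul_of_nonneg_right ?_ (by linarith)
      exact_mod_cast hRcard
    rw [e1] at hmain
    have e4 : prob (fun x : Ω => C.eval (gi x.2.1) = true) =
        prob (fun U : Finset (Sym2 (Fin n)) => C.eval (graphInput (gr U)) = true) :=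
      e2 (fun U => C.eval (gi U) = true)
    rw [e4] at hmain
    linarith
  · intro x hx
    by_cases h0 : C.eval (gi x.2.1) = true
    · exact .inl h0
    · right
      have hr : C.reads (gi x.2.1) ∈ R := hfin.mem_toFinset.2 ⟨_, rfl⟩
      refine ⟨C.reads (gi x.2.1), hr, ?_⟩
      obtain ⟨-, -, -, g4, g5⟩ := hE _ hr
      have hE1 : (E (C.reads (gi x.2.1))).eval (gi (x.2.1 ∪ KT x.1.1)) = true := by
        by_contra hcon
        have h1 := (g4 (gi x.2.1) rfl (gi (x.2.1 ∪ KT x.1.1)) (gi_mono subset_union_left)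
          (Bool.eq_false_iff.2 hcon)).2
        rw [hx] at h1
        exact absurd h1 (by simp)
      by_cases hEB : (E (C.reads (gi x.2.1))).eval (gi (stage x.2 B)) = true
      · exact .inr ⟨hEB, fun hE0 => h0 (g5 _ rfl hE0)⟩
      · exact .inl ⟨hE1, Bool.eq_false_iff.2 hEB⟩
  · intro r hr x hx
    exact eval_mono (E r) (hE r hr).1 (gi_mono (by unfold stage; exact subset_union_left)) hx

end Pool.Agent.T9h75.QC
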